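import Pool.Agent.H70.UX.Box
import Pool.Agent.H62.BL.Sma

/-!
# [H77 INP DF] the input `UX2` of UBX (H70/UX/Box.lean): frame

* `Fx k j z Mg Cg C' C₁ Y Fr B Zw l W Yw`: everything which is known about the places `L`, `Fr`, the primes `Zw` and the words `W v`, `Yw i` for a fixed `Y`: `L` normalised by `z` of
  order `p ^ j`, good up to order `Mg` and `Y ^ Cg` (`GLp`), the relation (R) in the order `l` for the groups of order at most `p ^ k` (`Rel`, it contains `Wds`), the honesty criterion `crt`, the local relations `com` (outside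
  `S0`) and `loc` (at `S0`) for all homomorphisms of the Galois group.
* `Inp D Ω k j z S`: for all `A`, `Q`, `B`, `C₁ A₀ ε` there are `Mg`, `Cg` such that for all `C'`, large `Y` and all data with `Fx` the statement `S A L Fr W Zw C₁ A₀ ε Y` holds.
* `SBL κ m`, `SBG κ m`: the two box lemmas `BLatX`, `BGb`. `PI p S`: `Inp` for all fields with enough roots of unity, all large `k`.
The goal (`Inp.lean`): `PI p SBL`, `PI p SBG` imply `UX2 p`.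
-/

set_option autoImplicit false

open scoped NumberField commutatorElement
open IsDedekindDomain
open scoped Classical

noncomputable section

namespace H77.INP

open H38.ML H63.MA H38.BB H38.BG H57.PC H57.BRA H77.WD H77.WE H77.PC3 H35.CF H35.UB H77.S3 H62.BL
  H70.UX

variable {K : Type} [Field K] [NumberField K] {Ω : Type} [Field Ω] [Algebra K Ω]
  {p : ℕ} {ζ : K} {D : RD0 K p ζ}

/-- places and words for fixed `Y` -/
structure Fx (k j : ℕ) (z : K) (Mg Cg C' : ℕ) (C₁ Y : ℝ) {L : LDs D Ω} (Fr : FR L) {Q : DP K Ω}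
    {A : GS D Ω} (B : SD D Q A) (Zw : Finset (Pl K)) (l : List (Pl K)) (W : Pl K → FW A)
    (Yw : Fin A.g → FW A) : Prop where
  nl : H24.RK.NL j z L
  gl : GLp p Fr Mg Cg C' Y
  out : ∀ v ∈ Zw, v ∉ D.S0
  all : ∀ v, D.Gd v → (nm v : ℝ) ≤ Y ^ C₁ → v ∈ Zw
  nd : l.Nodup
  ml : ∀ v, v ∈ l ↔ v ∈ Zw ∨ v ∈ D.S0
  rel : Rel k (p ^ k) L Fr A B Zw l W Yw
  crt : ∀ (H : Type) [Group H] [Finite H], Sml p k (p ^ k) H → ∀ θ : FW A →* H,
    (∀ v, v ∉ Zw ∨ v ∈ D.S0 → θ (FreeGroup.of (Sum.inl v)) = 1) →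
    (∀ v ∈ Zw, v ∉ D.S0 → ⁅θ (FreeGroup.of (Sum.inl v)), θ (W v)⁆ = 1) →
    (∀ v ∈ D.S0, blk B.pl v (fun i => θ (FreeGroup.of (Sum.inr i))) (fun i => θ (Yw i)) = 1) →
    ∃ φ : Gal(Ω/K) →* H, Unz L Zw φ ∧ hat L A φ = θ
  com : ∀ v, v ∉ D.S0 → ∀ (H : Type) [Group H] [Finite H], Sml p k (p ^ k) H →
    ∀ φ : Gal(Ω/K) →* H, H38.ML.FT φ → φ (Fr.F v) * φ (L.t v) = φ (L.t v) * φ (Fr.F v)
  loc : ∀ v ∈ D.S0, ∀ (H : Type) [Group H] [Finite H], Sml p k (p ^ k) H →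
    ∀ φ : Gal(Ω/K) →* H, H38.ML.FT φ → blk B.pl v (fun i => φ (A.a i)) (fun i => φ (B.b i)) = 1

/-- a statement about places and words, with constants `C₁ A₀ ε Y` -/
abbrev Stm (D : RD0 K p ζ) (Ω : Type) [Field Ω] [Algebra K Ω] : Type _ :=
  ∀ (A : GS D Ω) (L : LDs D Ω), FR L → (Pl K → FW A) → Finset (Pl K) → ℝ → ℝ → ℝ → ℝ → Prop

/-- `S` holds for good places and words -/
def Inp (D : RD0 K p ζ) (Ω : Type) [Field Ω] [Algebra K Ω] (k j : ℕ) (z : K) (S : Stm D Ω) :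
    Prop :=
  ∀ (A : GS D Ω) (Q : DP K Ω) (B : SD D Q A) (C₁ A₀ ε : ℝ), 0 < ε → ∃ Mg Cg : ℕ, ∀ C' : ℕ,
    ∃ Y₀ : ℝ, 3 ≤ Y₀ ∧ ∀ Y : ℝ, Y₀ ≤ Y → ∀ (L : LDs D Ω) (Fr : FR L) (Zw : Finset (Pl K))
      (l : List (Pl K)) (W : Pl K → FW A) (Yw : Fin A.g → FW A),
      Fx k j z Mg Cg C' C₁ Y Fr B Zw l W Yw → S A L Fr W Zw C₁ A₀ ε Y

/-- the box lemma `BLatX` for all groups of order at most `m`, exponent `p ^ κ` -/
def SBL (D : RD0 K p ζ) (Ω : Type) [Field Ω] [Algebra K Ω] (κ m : ℕ) : Stm D Ω :=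
  fun A L _ W Zw C₁ A₀ ε Y => ∀ (P : Type) [Group P] [Fintype P], Nat.card P ≤ m →
    (∀ x : P, x ^ (p ^ κ) = 1) → ∀ (N : Subgroup P) [N.Normal] (n : ℕ), Nk N (n + 1) = ⊥ →
      N = Subgroup.closure {x | x ∈ N ∧ x ^ p = 1} → ∀ E ⊆ Zw,
        H35.UX.BLatX L A W Zw E N n C₁ A₀ ε Y

/-- the box lemma `BGb` for all groups of order at most `m`, exponent `p ^ κ` -/
def SBG (D : RD0 K p ζ) (Ω : Type) [Field Ω] [Algebra K Ω] (κ m : ℕ) : Stm D Ω :=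
  fun A _ Fr W Zw C₁ A₀ ε Y => ∀ (P : Type) [Group P] [Fintype P], Nat.card P ≤ m →
    (∀ x : P, x ^ (p ^ κ) = 1) → ∀ (N : Subgroup P) [N.Normal] (n : ℕ), Nk N (n + 1) = ⊥ →
      N = Subgroup.closure {x | x ∈ N ∧ x ^ p = 1} → ∀ E ⊆ Zw,
        BGb Fr A W Zw E N n C₁ A₀ ε Y

/-- `Inp` for all fields with enough roots of unity (`z` of order `p ^ (n + 1)`), all large `k` -/
def PInp (p : ℕ) (S : ∀ (κ m : ℕ) (K : IntermediateField ℚ QBar) [NumberField K] (ζ : K)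
    (D : RD0 K p ζ), Stm D QBar) : Prop :=
  ∀ κ m : ℕ, ∃ k₀ : ℕ, ∀ k : ℕ, k₀ ≤ k → ∃ n₀ : ℕ, ∀ n : ℕ, n₀ ≤ n →
    ∀ (K : IntermediateField ℚ QBar) [NumberField K] (ζ : K) (_ : IsPrimitiveRoot ζ p) (z : K)
      (_ : IsPrimitiveRoot z (p ^ (n + 1))) (_ : z ^ p ^ n = ζ) (D : RD K p ζ),
      Inp D.toRD0 QBar k (n + 1) z (S κ m K ζ D.toRD0)

/-- the first input -/
def PBL (p : ℕ) : Prop := PInp p fun κ m _ _ _ D => SBL D QBar κ m

/-- the second input -/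
def PBG (p : ℕ) : Prop := PInp p fun κ m _ _ _ D => SBG D QBar κ m

end H77.INP
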