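import Pool.Agent.H77.S3.Tsi
import Pool.Agent.H24.RK.Ltr
import Pool.Agent.H24.RK.Nrm

/-!
# [H77 INP NLX] the functional `FnC` is the same for all families of normalised places

`L`, `L'` normalised by the same root of unity `z` of order `p ^ n` (`NL n z`), `k ≤ n`.
* `in_eq`: inertia elements at `P` with the same action on the `p ^ n`-th root of the uniformizer have the same value under all `ρ` with inertia of exponent `p ^ n`.
* `br_self`, `br_mulr`: `br e s (x y) = br e s x + br e s y` for closed `e`.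
* `tor_nl`: the torus at `v` is the same for `L`, `L'`. `fnc_nl`: `FnC` for `(L, Fr)` implies `FnC` for `(L', Fr')`.
-/

set_option autoImplicit false
set_option linter.dupNamespace false

open scoped NumberField commutatorElement
open IsDedekindDomain
open scoped Classical

noncomputable section

namespace H77.INP

open H63.MA H38.BB H38.BG H57.PC H57.BRA H57.GP H77.WD Pool.Agent.H19.NF
  Pool.Agent.H19.AB Pool.Agent.H19.A2 H77.WE Pool.Agent.H19 H77.GL H77.S3 H24.RK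

section coc

variable {G M : Type} [Group G] [AddCommGroup M] {e : G → G → M}

theorem br_mulr (h : ∀ x y w, d2 e x y w = 0) {s x y : G} (hx : s * x = x * s)
    (hy : s * y = y * s) : br e s (x * y) = br e s x + br e s y := by
  have e1 := h s x y
  have e2 := h x s y
  have e3 := h x y s
  unfold d2 at e1 e2 e3
  rw [hx] at e1
  rw [hy] at e2
  have h1 : e s (x * y) - e (x * y) s = e s x - e x s + (e s y - e y s) +
      ((e x y - e (x * s) y + e s (x * y) - e s x) - (e s y - e (x * s) y + e x (y * s) - e x s) +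
        (e y s - e (x * y) s + e x (y * s) - e x y)) := by
    abel
  unfold br
  rw [h1, e1, e2, e3]
  abel

theorem br_powr (h : ∀ x y w, d2 e x y w = 0) {s x : G}
    (hx : s * x = x * s) (i : ℕ) : br e s (x * s ^ i) = br e s x := by
  induction i with
  | zero => rw [pow_zero, mul_one]
  | succ i ih =>
    have h1 : s * (x * s ^ i) = x * s ^ i * s := by
      rw [← mul_assoc, hx, mul_assoc, mul_assoc, ← pow_succ', ← pow_succ]
    rw [pow_succ, ← mul_assoc, br_mulr h h1 rfl, ih]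
    unfold br
    rw [sub_self, add_zero]

end coc

variable {K : Type} [Field K] [NumberField K] {Ω : Type} [Field Ω] [Algebra K Ω] [IsAlgClosure K Ω]
  {p : ℕ} {ζ : K}

omit [NumberField K] [IsAlgClosure K Ω] in
/-- the Kummer character as a homomorphism -/
theorem kc_hom {n : ℕ} {z : K} {b : Kˣ} {Θ : Gal(Ω/K) → ZMod (p ^ n)}
    (h : KC p n z b Θ) : ∃ χ : Gal(Ω/K) →* Multiplicative (ZMod (p ^ n)), H38.ML.FT χ ∧
      ∀ σ, Multiplicative.toAdd (χ σ) = Θ σ := by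
  refine ⟨MonoidHom.mk' (fun σ => Multiplicative.ofAdd (Θ σ)) fun σ τ => by
    rw [h.mul, ofAdd_add], ?_, fun σ => rfl⟩
  obtain ⟨E, hE, hE2⟩ := h.lev
  refine ⟨E, hE, fun u hu => ?_⟩
  rw [MonoidHom.mem_ker, MonoidHom.mk'_apply]
  have h1 := hE2 1 u hu
  have h2 := h.mul 1 1
  rw [one_mul] at h1
  rw [one_mul] at h2
  rw [h1, left_eq_add.1 h2]
  rfl

/-- inertia elements with the same action on the root of the uniformizer -/
theorem in_eq (hp : p.Prime) (hζ : IsPrimitiveRoot ζ p) {n : ℕ} {z : K}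
    (hz : IsPrimitiveRoot z (p ^ n)) {v : Pl K} (hv : ¬ Above p v) {π : Kˣ} (hπ : ord v π = 1)
    (l : LD p ζ Ω v π) {F : Gal(Ω/K)} (hF : ∀ x : 𝓞 Ω, F • x - x ^ nm v ∈ l.P) {ϖ ϖ' : Ω}
    (hϖ : ϖ ^ p ^ n = algebraMap K Ω (π : K)) (htϖ : l.t ϖ = algebraMap K Ω z * ϖ)
    {t' : Gal(Ω/K)} (ht' : t' ∈ l.P.inertia Gal(Ω/K))
    (hϖ' : ϖ' ^ p ^ n = algebraMap K Ω (π : K)) (htϖ' : t' ϖ' = algebraMap K Ω z * ϖ')
    {R : Type} [Group R] [Finite R] {ρ : Gal(Ω/K) →* R} (hρ : H38.ML.FT ρ)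
    (he : ∀ τ ∈ l.P.inertia Gal(Ω/K), ρ τ ^ p ^ n = 1) : ρ t' = ρ l.t := by
  have hne : NeZero (p ^ n) := ⟨pow_ne_zero _ hp.ne_zero⟩
  obtain ⟨Θ, hΘ⟩ := klr (Ω := Ω) hp hz π
  obtain ⟨f, hf⟩ := kc_loc hp hz hv hπ l.prime l.under hF l.ht hϖ htϖ
  obtain ⟨f', hf'⟩ := kc_loc hp hz hv hπ l.prime l.under hF ht' hϖ' htϖ'
  have h1 : Θ l.t = 1 := by rw [(hf π Θ hΘ).2, hπ, Int.cast_one]
  have h2 : Θ t' = 1 := by rw [(hf' π Θ hΘ).2, hπ, Int.cast_one]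
  obtain ⟨χ, hχ, hχ2⟩ := kc_hom hΘ
  have hfin : Finite (Multiplicative (ZMod (p ^ n))) := inferInstanceAs (Finite (ZMod (p ^ n)))
  obtain ⟨j, hj⟩ := tmK (k := n) hp hζ hv hπ l (χ.prod ρ) (gtame_ft_prod _ _ hχ hρ) (fun τ hτ => by
    have h3 : (χ.prod ρ) τ = (χ τ, ρ τ) := rfl
    rw [h3, Prod.pow_mk, he τ hτ]
    refine Prod.ext ?_ rfl
    change χ τ ^ p ^ n = 1
    apply Multiplicative.toAdd.injective
    rw [toAdd_pow, toAdd_one, nsmul_eq_mul, ZMod.natCast_self, zero_mul]) t' ht'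
  have h3 : χ t' = χ l.t ^ j := congrArg Prod.fst hj
  have h4 : ρ t' = ρ l.t ^ j := congrArg Prod.snd hj
  have h5 : (1 : ZMod (p ^ n)) = (j : ZMod (p ^ n)) := by
    have h6 := congrArg Multiplicative.toAdd h3
    rw [toAdd_pow, hχ2, hχ2, h1, h2, nsmul_eq_mul, mul_one] at h6
    exact h6
  have h6 : ((p ^ n : ℕ) : ℤ) ∣ (j : ℤ) - 1 := by
    rw [← ZMod.intCast_zmod_eq_zero_iff_dvd, Int.cast_sub, Int.cast_natCast, Int.cast_one, ← h5,
      sub_self]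
  obtain ⟨c, hc⟩ := h6
  have h7 : ρ l.t ^ ((j : ℤ) - 1) = 1 := by
    rw [hc, zpow_mul, zpow_natCast, he l.t l.ht, one_zpow]
  rw [h4, ← zpow_natCast]
  have h8 : (j : ℤ) = ((j : ℤ) - 1) + 1 := by ring
  rw [h8, zpow_add, h7, one_mul, zpow_one]

/-- the torus at `v` is the same for all normalised places -/
theorem tor_nl (hp : p.Prime) (hζ : IsPrimitiveRoot ζ p) {k n : ℕ} {z : K}
    (hz : IsPrimitiveRoot z (p ^ n)) (hkn : k ≤ n) {D : RD0 K p ζ}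
    {L L' : LDs D Ω} (hL : NL n z L) (hL' : NL n z L') (Fr : FR L) (Fr' : FR L') {v : Pl K}
    (hv : v ∉ D.S0) {M : Type} [CommRing M] {R : Type} [Group R] [Finite R] {ρ : Gal(Ω/K) →* R}
    (hρ : H38.ML.FT ρ) (he : ∀ τ ∈ inr L v, ρ τ ^ p ^ k = 1) {ψ : R → R → M}
    (hc : ∀ σ τ υ, d2 (fun σ τ => ψ (ρ σ) (ρ τ)) σ τ υ = 0) :
    br (fun σ τ => ψ (ρ σ) (ρ τ)) (L'.t v) (Fr'.F v) =
      br (fun σ τ => ψ (ρ σ) (ρ τ)) (L.t v) (Fr.F v) := by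
  have hna : ¬ Above p v := fun h => hv (D.above v h)
  have ht : L.t v = (L.ld v hv).t := by rw [LDs.t, dif_pos hv]
  have ht' : L'.t v = (L'.ld v hv).t := by rw [LDs.t, dif_pos hv]
  have hi : inr L v = (L.ld v hv).P.inertia Gal(Ω/K) := by rw [inr, dif_pos hv]
  rw [hi] at he
  rw [ht, ht']
  have hπ := D.pi_self v hv
  obtain ⟨ϖ, hϖ, htϖ⟩ := hL v hv
  obtain ⟨ϖ', hϖ', htϖ'⟩ := hL' v hv
  have hFr := Fr.fr v hv
  have hFr' := Fr'.fr v hv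
  set l := L.ld v hv with hld
  set l' := L'.ld v hv with hld'
  obtain ⟨g, hg⟩ := ltr_conj l.prime l'.prime l.under l'.under
  have he2 : ∀ τ ∈ l.P.inertia Gal(Ω/K), ρ τ ^ p ^ n = 1 := fun τ hτ => by
    obtain ⟨i, hi⟩ := pow_dvd_pow p hkn
    rw [hi, pow_mul, he τ hτ, one_pow]
  have h1 : g⁻¹ * l'.t * g ∈ l.P.inertia Gal(Ω/K) := by
    intro x
    have h1 : (g⁻¹ * l'.t * g) • x - x = g⁻¹ • (l'.t • (g • x) - g • x) := by
      rw [smul_sub, mul_smul, mul_smul, inv_smul_smul]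
    rw [h1]
    exact (hg _).1 (l'.ht (g • x))
  have h2 : ρ (g⁻¹ * l'.t * g) = ρ l.t := by
    refine in_eq hp hζ hz hna hπ l hFr hϖ htϖ h1 (ϖ' := g⁻¹ ϖ') ?_ ?_ hρ he2
    · rw [← map_pow, hϖ', AlgEquiv.commutes]
    · rw [AlgEquiv.mul_apply, AlgEquiv.mul_apply]
      have h3 : g (g⁻¹ ϖ') = ϖ' := by
        rw [← AlgEquiv.mul_apply, mul_inv_cancel]
        rfl
      rw [h3, htϖ', map_mul, AlgEquiv.commutes]
  have hF2 : ∀ x : 𝓞 Ω, (g⁻¹ * Fr'.F v * g) • x - x ^ nm v ∈ l.P := by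
    intro x
    have h1 : (g⁻¹ * Fr'.F v * g) • x - x ^ nm v =
        g⁻¹ • (Fr'.F v • (g • x) - (g • x) ^ nm v) := by
      rw [smul_sub, mul_smul, mul_smul, smul_pow', inv_smul_smul]
    rw [h1]
    exact (hg _).1 (hFr' (g • x))
  have h3 := ltr_pow l.prime hFr 1 (F' := g⁻¹ * Fr'.F v * g) (by rw [pow_one]; exact hF2)
  rw [pow_one] at h3
  obtain ⟨i, h4⟩ := tmK hp hζ hna hπ l ρ hρ he2 _ h3
  have h5 : ρ (g⁻¹ * Fr'.F v * g) = ρ (Fr.F v) * ρ l.t ^ i := by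
    rw [← h4, ← map_mul, mul_inv_cancel_left]
  -- commuting
  have h6 : ρ l.t * ρ (Fr.F v) = ρ (Fr.F v) * ρ l.t := by
    cases n with
    | zero =>
      have h7 : ρ l.t = 1 := by
        have h8 := he2 l.t l.ht
        rwa [pow_zero, pow_one] at h8
      rw [h7, one_mul, mul_one]
    | succ n => exact (comm_m hp hζ hz hna hπ l hFr ρ hρ he2).symm
  have h7 : ρ l.t * ρ (g⁻¹ * Fr'.F v * g) = ρ (g⁻¹ * Fr'.F v * g) * ρ l.t := by
    rw [h5, ← mul_assoc, h6, mul_assoc, mul_assoc, ← pow_succ', ← pow_succ]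
  have h7' : ρ (g⁻¹ * l'.t * g * (g⁻¹ * Fr'.F v * g)) =
      ρ (g⁻¹ * Fr'.F v * g * (g⁻¹ * l'.t * g)) := by
    rw [map_mul ρ (g⁻¹ * l'.t * g), map_mul ρ (g⁻¹ * Fr'.F v * g), h2, h7]
  have h8 := br_cj (Ψ := fun σ τ => ψ (ρ σ) (ρ τ)) hc g (g⁻¹ * l'.t * g) (g⁻¹ * Fr'.F v * g)
    (fun a => by
      show ψ (ρ a) (ρ _) = ψ (ρ a) (ρ _)
      rw [h7']) fun a => by
      show ψ (ρ _) (ρ a) = ψ (ρ _) (ρ a)
      rw [map_mul ρ _ g⁻¹, map_mul ρ _ g⁻¹, map_mul ρ g, map_mul ρ g, h7']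
  have e1 : g * (g⁻¹ * l'.t * g) * g⁻¹ = l'.t := by group
  have e2 : g * (g⁻¹ * Fr'.F v * g) * g⁻¹ = Fr'.F v := by group
  rw [e1, e2] at h8
  rw [h8]
  have h9 : ∀ x y : R, br (fun σ τ => ψ (ρ σ) (ρ τ)) (g⁻¹ * l'.t * g) (g⁻¹ * Fr'.F v * g) =
      ψ (ρ (g⁻¹ * l'.t * g)) (ρ (g⁻¹ * Fr'.F v * g)) -
        ψ (ρ (g⁻¹ * Fr'.F v * g)) (ρ (g⁻¹ * l'.t * g)) := fun _ _ => rfl
  rw [h9 1 1, h2, h5]
  -- on the range
  have hcl : ∀ x y w : ρ.range, d2 (fun x y : ρ.range => ψ x y) x y w = 0 := by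
    rintro ⟨_, σ, rfl⟩ ⟨_, τ, rfl⟩ ⟨_, υ, rfl⟩
    have h10 := hc σ τ υ
    unfold d2 at h10 ⊢
    beta_reduce at h10
    rw [map_mul, map_mul] at h10
    exact h10
  exact br_powr (e := fun x y : ρ.range => ψ x y) hcl
    (s := ⟨ρ l.t, l.t, rfl⟩) (x := ⟨ρ (Fr.F v), Fr.F v, rfl⟩) (Subtype.ext h6) i

theorem tmk_nl {k : ℕ} {D : RD0 K p ζ} (L L' : LDs D Ω) {R : Type} [Group R]
    {ρ : Gal(Ω/K) →* R} (h : Tmk k L ρ) : Tmk k L' ρ := by
  intro v hv τ hτ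
  have hi : inr L v = (L.ld v hv).P.inertia Gal(Ω/K) := by rw [inr, dif_pos hv]
  have hi' : inr L' v = (L'.ld v hv).P.inertia Gal(Ω/K) := by rw [inr, dif_pos hv]
  rw [hi'] at hτ
  obtain ⟨g, hg⟩ := ltr_conj (L.ld v hv).prime (L'.ld v hv).prime (L.ld v hv).under
    (L'.ld v hv).under
  have h1 : g⁻¹ * τ * g ∈ (L.ld v hv).P.inertia Gal(Ω/K) := by
    intro x
    have h1 : (g⁻¹ * τ * g) • x - x = g⁻¹ • (τ • (g • x) - g • x) := by
      rw [smul_sub, mul_smul, mul_smul, inv_smul_smul]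
    rw [h1]
    exact (hg _).1 (hτ (g • x))
  have h2 := h v hv _ (by rw [hi]; exact h1)
  have h3 : ρ τ = ρ g * ρ (g⁻¹ * τ * g) * (ρ g)⁻¹ := by
    rw [← map_inv, ← map_mul, ← map_mul]
    congr 1
    group
  rw [h3, conj_pow, h2, mul_one, mul_inv_cancel]

/-- the functional does not depend on the places -/
theorem fnc_nl (hp : p.Prime) (hζ : IsPrimitiveRoot ζ p) {k m n : ℕ} {z : K}
    (hz : IsPrimitiveRoot z (p ^ n)) (hkn : k ≤ n) [NeZero (p ^ m)] {D : RD0 K p ζ}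
    {L L' : LDs D Ω} (hL : NL n z L) (hL' : NL n z L') {Q : DP K Ω} {Fr : FR L} (Fr' : FR L')
    {I : ((Gal(Ω/K) → Gal(Ω/K) → Gal(Ω/K) → ZMod (p ^ m)) ×
      (Pl K → Gal(Ω/K) → Gal(Ω/K) → ZMod (p ^ m))) →+ AddCircle (1 : ℝ)}
    (hI : FnC p k m D L Q Fr I) : FnC p k m D L' Q Fr' I := by
  intro Ψ η h1 h2 h3
  obtain ⟨R, i1, i2, ρ, ψ, ht, hρ, hl, hr, hΨ⟩ := h1
  have htL := tmk_nl L' L ht
  rw [hI Ψ η ⟨R, i1, i2, ρ, ψ, htL, hρ, hl, hr, hΨ⟩ h2 h3]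
  congr 1
  unfold TS1
  refine finsum_congr fun v => ?_
  by_cases hv : v ∈ D.S0
  · rw [t_S0 L hv, t_S0 L' hv]
    unfold br
    rw [hΨ, hΨ, hΨ, hΨ, map_one, hl, hr, hl, hr]
  · have h4 : Ψ = fun σ τ => ψ (ρ σ) (ρ τ) := by
      funext σ τ
      exact hΨ σ τ
    rw [h4] at h2 ⊢
    exact (tor_nl hp hζ hz hkn hL hL' Fr Fr' hv hρ (htL v hv) h2).symm

/-- the honesty criterion does not depend on the places -/
theorem ff_nl (hp : p.Prime) (hζ : IsPrimitiveRoot ζ p) {k m n : ℕ} {z : K}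
    (hz : IsPrimitiveRoot z (p ^ n)) (hkn : k ≤ n) [NeZero (p ^ m)] {D : RD0 K p ζ}
    {L L' : LDs D Ω} (hL : NL n z L) (hL' : NL n z L') {Q : DP K Ω} {Fr : FR L} (Fr' : FR L')
    {I : ((Gal(Ω/K) → Gal(Ω/K) → Gal(Ω/K) → ZMod (p ^ m)) ×
      (Pl K → Gal(Ω/K) → Gal(Ω/K) → ZMod (p ^ m))) →+ AddCircle (1 : ℝ)}
    (hF : FF p k m D L Q Fr I) : FF p k m D L' Q Fr' I := by
  intro R _ _ e he ρ hexp hρ hiv h0
  refine hF R e he ρ hexp hρ (fun v hv => ?_) h0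
  have h1 : br (fun σ τ => e (ρ σ) (ρ τ)) (L'.t v) (Fr'.F v) = 0 := by
    have h2 := hiv v hv
    unfold br
    unfold iv at h2
    beta_reduce
    linear_combination -h2
  rw [tor_nl hp hζ hz hkn hL hL' Fr Fr' hv hρ (fun τ _ => hexp _) (fun σ τ υ => by
    show e (ρ τ) (ρ υ) - e (ρ (σ * τ)) (ρ υ) + e (ρ σ) (ρ (τ * υ)) - e (ρ σ) (ρ τ) = 0
    have h9 := he.co (ρ σ) (ρ τ) (ρ υ)
    rw [map_mul, map_mul]
    linear_combination h9)] at h1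
  unfold br at h1
  unfold iv
  beta_reduce at h1
  linear_combination -h1

omit [IsAlgClosure K Ω] in
/-- conjugated families of normalised places -/
theorem nl_cj {n : ℕ} {z : K} {D : RD0 K p ζ} {L : LDs D Ω} (hL : NL n z L)
    (s : Pl K → Gal(Ω/K)) : NL n z (cjL L s) := by
  intro v hv
  obtain ⟨ϖ, h1, h2⟩ := hL v hv
  refine ⟨s v ϖ, ?_, ?_⟩
  · rw [← map_pow, h1, AlgEquiv.commutes]
  · show (s v * (L.ld v hv).t * (s v)⁻¹) (s v ϖ) = _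
    rw [AlgEquiv.mul_apply, AlgEquiv.mul_apply]
    have h3 : (s v)⁻¹ (s v ϖ) = ϖ := by
      rw [← AlgEquiv.mul_apply, inv_mul_cancel]
      rfl
    rw [h3, h2, map_mul, AlgEquiv.commutes]

end H77.INP
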