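import Pool.Agent.H77.INP.Df
import Pool.Agent.H77.INP.Nlx
import Pool.Agent.H77.S3.Lca
import Pool.Agent.H77.S3.Rel
import Pool.Agent.H77.S3.Crt
import Pool.Agent.H24.RK.Fnr
import Pool.Agent.H77.WE.GlU

/-!
# [H77 INP INP] the input `UX2` of UBX from the two box lemmas

* `glp_mono`. `fx_of`: `A`, `B` and for all good normalised places, all `Zw`, all orders `l`, words with `Fx`. `fx_ex`: for every `L₀` normalised by `z` there are conjugates `L`, `Fr` and for all `Zw` words with `Fx`; `A`, `B` do not depend on `L₀`.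
* `inp`: `PBL p`, `PBG p` imply `UX2 p`.
-/

set_option autoImplicit false
set_option linter.dupNamespace false

open scoped NumberField commutatorElement
open IsDedekindDomain
open scoped Classical

noncomputable section

namespace H77.INP

open H38.ML H63.MA H38.BB H38.BG H57.PC H57.BRA H77.WD H77.WE H77.PC3 H35.CF H35.UB H77.S3 H62.BL
  H70.UX H77.GL H24.RK Pool.Agent.H19.A2 H24.S3

variable {K : Type} [Field K] [NumberField K] {Ω : Type} [Field Ω] [Algebra K Ω]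
  [IsAlgClosure K Ω] {p : ℕ} {ζ : K}

omit [IsAlgClosure K Ω] in
theorem glp_mono {D : RD0 K p ζ} {L : LDs D Ω} {Fr : FR L} {M M₁ C C₁ C' : ℕ} {Y : ℝ}
    (h : GLp p Fr M C C' Y) (hM : M₁ ≤ M) (hC : C₁ ≤ C) (hY : 1 ≤ Y) : GLp p Fr M₁ C₁ C' Y :=
  fun H _ _ hH hc φ T hφ hT f hf x' x b hx hxY =>
    h H hH (hc.trans hM) φ T hφ (hT.trans (pow_le_pow_right₀ hY hC)) f hf x' x b hx
      (hxY.trans (pow_le_pow_right₀ hY hC))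

omit [NumberField K] [IsAlgClosure K Ω] in
theorem mone_k (hp : p.Prime) {n : ℕ} (hn : 1 ≤ n) {z : K}
    (hz : IsPrimitiveRoot z (p ^ (n + 1))) : MOne p K ∧ MOne (p ^ n) K := by
  by_cases hp2 : p = 2
  · subst hp2
    have h1 : IsPrimitiveRoot (z ^ 2 ^ n) 2 := hz.pow (pow_pos (by norm_num) _) (by rw [pow_succ])
    have h2 : z ^ 2 ^ n = -1 := h1.eq_neg_one_of_two_right
    obtain ⟨k, rfl⟩ : ∃ k, n = k + 1 := ⟨n - 1, by omega⟩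
    exact ⟨⟨z ^ 2 ^ k, by rw [← pow_mul, ← pow_succ, h2]⟩, ⟨z, h2⟩⟩
  · have h1 := hp.odd_of_ne_two hp2
    exact ⟨⟨-1, h1.neg_one_pow⟩, ⟨-1, (h1.pow).neg_one_pow⟩⟩

/-- existence of the generators at `S0`, and of words for all good places -/
theorem fx_of (hp : p.Prime) (hζ : IsPrimitiveRoot ζ p) {k n : ℕ} (hk : 3 ≤ k) (hn : 2 * k + 1 ≤ n)
    {z : K} (hz : IsPrimitiveRoot z (p ^ (n + 1))) (hzζ : z ^ p ^ n = ζ) (D : RD0 K p ζ) :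
    ∃ (A : GS D Ω) (Q : DP K Ω) (B : SD D Q A), ∀ L : LDs D Ω, NL (n + 1) z L → ∀ (Fr : FR L)
      (Mg Cg C' : ℕ) (Y C₁ : ℝ), GLp p Fr Mg Cg C' Y → ∀ Zw : Finset (Pl K),
        (∀ v ∈ Zw, v ∉ D.S0) → (∀ v, D.Gd v → (nm v : ℝ) ≤ Y ^ C₁ → v ∈ Zw) →
        ∀ l : List (Pl K), l.Nodup → (∀ v, v ∈ l ↔ v ∈ Zw ∨ v ∈ D.S0) →
          ∃ (W : Pl K → FW A) (Yw : Fin A.g → FW A),
            Fx k (n + 1) z Mg Cg C' C₁ Y Fr B Zw l W Yw := by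
  obtain ⟨N, rfl⟩ : ∃ N, n = N + 1 := ⟨n - 1, by omega⟩
  obtain ⟨i, rfl⟩ : ∃ i, k = i + 1 := ⟨k - 1, by omega⟩
  have hz' : Zn p (N + 1 + 1) K := ⟨z, hz⟩
  obtain ⟨hm1, hm3⟩ := mone_k hp (Nat.le_add_left 1 N) hz
  have hzp : IsPrimitiveRoot (z ^ p) (p ^ (N + 1)) := hz.pow (pow_pos hp.pos _) (by
    rw [pow_succ, mul_comm])
  have hzpz : (z ^ p) ^ p ^ N = ζ := by rw [← pow_mul, ← pow_succ', hzζ]
  have hne : NeZero (p ^ (i + 1)) := ⟨(pow_pos hp.pos _).ne'⟩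
  have hnl : ∀ L : LDs D Ω, NL (N + 1 + 1) z L → NL (N + 1) (z ^ p) L := fun L hL => by
    intro v hv
    obtain ⟨w, h2, h3⟩ := hL v hv
    refine ⟨w ^ p, ?_, ?_⟩
    · rw [← pow_mul, ← pow_succ', h2]
    · rw [map_pow, h3, mul_pow, map_pow]
  -- the root of unity of order `p ^ k`
  have hy : IsPrimitiveRoot (z ^ p ^ (N + 1 - i)) (p ^ (i + 1)) := hz.pow (pow_pos hp.pos _) (by
    rw [← pow_add]
    congr 1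
    omega)
  have hyζ : (z ^ p ^ (N + 1 - i)) ^ p ^ i = ζ := by
    rw [← pow_mul, ← pow_add, show N + 1 - i + i = N + 1 by omega, hzζ]
  obtain ⟨Q⟩ := exists_DP K Ω
  obtain ⟨L₂⟩ := exists_LDs Ω hp hζ D
  obtain ⟨L₁, hL₁, -⟩ := nl_exists hp hz hζ hzζ L₂
  obtain ⟨Fr₁⟩ := H57.BRA.exists_FR hp hζ L₁
  obtain ⟨I, hI⟩ := exists_fnrn hp ⟨hm1, hm3⟩ hm1 hζ hzp hzpz (hnl _ hL₁) Q Fr₁
    (m := i + 1) (k := i + 1) (by rw [max_self]; omega)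
  have hkN : i + 1 ≤ N + 1 + 1 := by omega
  have hIF := fnc_ff hp hm1 hζ hz (by omega : i + 1 + 1 ≤ N + 1 + 1) (Nat.succ_pos i) (by omega)
    (hz'.mono hp.pos (by omega)) hI (fun _ => 1)
  have hIC : FnC p (i + 1) (i + 1) D (cjL L₁ fun _ => 1) Q (cjF Fr₁ fun _ => 1) I := hIF.1
  have hIH : FF p (i + 1) (i + 1) D (cjL L₁ fun _ => 1) Q (cjF Fr₁ fun _ => 1) I := hIF.2
  have hL₁' : NL (N + 1 + 1) z (cjL L₁ fun _ => 1) := nl_cj hL₁ _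
  obtain ⟨A, B, hB⟩ := lca hp hm1 hζ rfl (fun _ => by omega) (le_refl (i + 1)) hy hyζ
    (le_refl (p ^ (i + 1))) (Nat.pow_le_pow_right hp.pos (by omega)) hIC
  refine ⟨A, Q, B, fun L hL Fr Mg Cg C' Y C₁ hs Zw hZ hC₁ l hl hlZ => ?_⟩
  have hIL := fnc_nl hp hζ hz hkN hL₁' hL Fr hIC
  have hFL := ff_nl hp hζ hz hkN hL₁' hL Fr hIH
  obtain ⟨W, Yw, hR⟩ := rel_ex hp hζ hz hkN (le_refl (i + 1)) (by omega) hIL hB hZ hl hlZ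
  exact ⟨W, Yw, hL, hs, hZ, hC₁, hl, hlZ, hR, fun H _ _ hH θ h1 h2 h3 =>
      crit hp hζ hFL hB hR.2.2.1 _ H rfl hH θ h1 h2 h3,
    fun v hv H _ _ hH φ hφ => hon_frm hp hζ hz hkN Fr hv hH φ hφ,
    fun v hv H _ _ hH φ hφ => blk_one hp (by omega) hIL hB hv _ H rfl hH φ hφ⟩

/-- existence of good places and words -/
theorem fx_ex (hp : p.Prime) (hζ : IsPrimitiveRoot ζ p) {k n : ℕ} (hk : 3 ≤ k) (hn : 2 * k + 1 ≤ n)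
    {z : K} (hz : IsPrimitiveRoot z (p ^ (n + 1))) (hzζ : z ^ p ^ n = ζ) (D : RD0 K p ζ) :
    ∃ (A : GS D Ω) (Q : DP K Ω) (B : SD D Q A), ∀ Mg Cg : ℕ, ∃ (C' : ℕ) (Y₀ : ℝ), ∀ Y : ℝ,
      Y₀ ≤ Y → ∀ L₀ : LDs D Ω, NL (n + 1) z L₀ → ∃ (L : LDs D Ω) (Fr : FR L), SimL L₀ L ∧
        ∀ (Zw : Finset (Pl K)) (C₁ : ℝ), (∀ v ∈ Zw, v ∉ D.S0) →
          (∀ v, D.Gd v → (nm v : ℝ) ≤ Y ^ C₁ → v ∈ Zw) →
          ∃ (l : List (Pl K)) (W : Pl K → FW A) (Yw : Fin A.g → FW A),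
            Fx k (n + 1) z Mg Cg C' C₁ Y Fr B Zw l W Yw := by
  have : Fact p.Prime := ⟨hp⟩
  obtain ⟨A, Q, B, hAB⟩ := fx_of (Ω := Ω) hp hζ hk hn hz hzζ D
  refine ⟨A, Q, B, fun Mg Cg => ?_⟩
  obtain ⟨C', Y₁, hgl⟩ := glU (Ω := Ω) hp hζ D Mg Cg
  refine ⟨C', Y₁, fun Y hY L₀ hL₀ => ?_⟩
  obtain ⟨Fr₀⟩ := H57.BRA.exists_FR hp hζ L₀
  obtain ⟨s, hs⟩ := hgl Y hY L₀ Fr₀
  refine ⟨cjL L₀ s, cjF Fr₀ s, sim_cj L₀ s, fun Zw C₁ hZ hC₁ => ?_⟩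
  obtain ⟨W, Yw, hW⟩ := hAB (cjL L₀ s) (nl_cj hL₀ s) (cjF Fr₀ s) Mg Cg C' Y C₁ hs Zw hZ hC₁
    (Zw ∪ D.S0).toList (Finset.nodup_toList _) fun v => by
      rw [Finset.mem_toList, Finset.mem_union]
  exact ⟨_, W, Yw, hW⟩

/-- THE INPUT of UBX from the two box lemmas -/
theorem inp {p : ℕ} (hp : p.Prime) (h1 : PBL p) (h2 : PBG p) : UX2 p := by
  intro κ m
  obtain ⟨k₁, hk₁⟩ := h1 κ m
  obtain ⟨k₂, hk₂⟩ := h2 κ m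
  obtain ⟨k, hk⟩ : ∃ k, k = k₁ + k₂ + κ + m + 3 := ⟨_, rfl⟩
  obtain ⟨n₁, hn₁⟩ := hk₁ k (by omega)
  obtain ⟨n₂, hn₂⟩ := hk₂ k (by omega)
  obtain ⟨n, hn⟩ : ∃ n, n = n₁ + n₂ + 2 * k + 1 := ⟨_, rfl⟩
  refine ⟨n, fun K _ ζ hζ z hz hzζ D => ?_⟩
  obtain ⟨A, Q, B, hAB⟩ := fx_ex (Ω := QBar) hp hζ (k := k) (by omega) (by omega) hz hzζ D.toRD0
  refine ⟨A, Q, B, k, p ^ k, ?_, by omega, fun C₁ A₀ ε hε => ?_⟩
  · calc m ≤ k := by omega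
      _ ≤ 2 ^ k := Nat.lt_two_pow_self.le
      _ ≤ p ^ k := Nat.pow_le_pow_left hp.two_le k
  obtain ⟨M₁, G₁, hMG₁⟩ := hn₁ n (by omega) K ζ hζ z hz hzζ D A Q B C₁ A₀ ε hε
  obtain ⟨M₂, G₂, hMG₂⟩ := hn₂ n (by omega) K ζ hζ z hz hzζ D A Q B C₁ A₀ ε hε
  obtain ⟨C', Y₀, hY₀⟩ := hAB (max M₁ M₂) (max G₁ G₂)
  obtain ⟨Y₁, hY₁3, hY₁⟩ := hMG₁ C'
  obtain ⟨Y₂, hY₂3, hY₂⟩ := hMG₂ C'
  refine ⟨max Y₀ (max Y₁ Y₂), hY₁3.trans ((le_max_left _ _).trans (le_max_right _ _)),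
    fun Y hY L₀ hL₀ => ?_⟩
  obtain ⟨L, Fr, hSim, hZ⟩ := hY₀ Y ((le_max_left _ _).trans hY) L₀ hL₀
  have hYY₁ : Y₁ ≤ Y := ((le_max_left _ _).trans (le_max_right _ _)).trans hY
  have hYY₂ : Y₂ ≤ Y := ((le_max_right _ _).trans (le_max_right _ _)).trans hY
  refine ⟨L, Fr, hSim, fun Zw hZw hZC => ?_⟩
  obtain ⟨l, W, Yw, hF⟩ := hZ Zw C₁ hZw hZC
  have hY1 : 1 ≤ Y := by linarith
  refine ⟨W, Yw, hF.rel.2.2.1, hF.rel.1, fun P _ _ hPm hPκ N _ n' hn' hN E hE => ⟨?_, ?_⟩⟩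
  · exact hY₁ Y hYY₁ L Fr Zw l W Yw ⟨hF.nl, glp_mono hF.gl (le_max_left _ _) (le_max_left _ _) hY1,
      hF.out, hF.all, hF.nd, hF.ml, hF.rel, hF.crt, hF.com, hF.loc⟩ P hPm hPκ N n' hn' hN E hE
  · exact hY₂ Y hYY₂ L Fr Zw l W Yw ⟨hF.nl, glp_mono hF.gl (le_max_right _ _) (le_max_right _ _) hY1,
      hF.out, hF.all, hF.nd, hF.ml, hF.rel, hF.crt, hF.com, hF.loc⟩ P hPm hPκ N n' hn' hN E hE

end H77.INP
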